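import Pool.Agent.H30.EE.TargetsU

/-!
# MP_70ba79_ag, board `ee_modules`: DAI

`Da` is minus the degree of the space of forms which vanish on the curve.
-/

set_option autoImplicit false

namespace Pool.Agent.H19.EEU

open MvPolynomial SC Pool.Agent.H27.LV Pool.Agent.H17.VG Pool.Agent.H30.EE

section

variable {K : Type} [Field K] {n r : ℕ}

theorem coeff_res (z : Fin (r + 1) → Fin (n + 1) → K) {a : ℕ} (c : Mon (n + 1) a → K) (i : ℕ) :
    (resC z (frm c)).coeff i = ∑ M, (resC z (mono K M.1)).coeff i * c M := by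
  unfold frm resC
  rw [map_sum, Polynomial.finsetSum_coeff]
  refine Finset.sum_congr rfl fun M _ => ?_
  rw [map_mul, aeval_C, Polynomial.algebraMap_eq, Polynomial.coeff_C_mul, mul_comm]

theorem comap_Iz (hQDM : T_QDM) (a : ℕ) (z : Fin (r + 1) → Fin (n + 1) → K)
    (hz : LinearIndependent K z) :
    (Iz a z).comap (frL K n a) = LinearMap.ker (Matrix.mulVecLin (Matrix.of (RM a z))) := by
  ext c
  have hfr : frL K n a c = frm c := rfl
  have hcoef : ∀ i : Fin (r * a + 1), (Matrix.mulVecLin (Matrix.of (RM a z)) c) i =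
      (resC z (frm c)).coeff i := by
    intro i
    rw [coeff_res]
    rfl
  rw [Submodule.mem_comap, LinearMap.mem_ker, hfr]
  constructor
  · rintro ⟨-, h⟩
    have h1 : resC z (frm c) = 0 := h
    funext i
    rw [hcoef, h1, Polynomial.coeff_zero]
    rfl
  · intro h
    refine ⟨(mem_homogeneousSubmodule _ _).2 (frm_homog c), ?_⟩
    change resC z (frm c) = 0
    have hdeg := (hQDM K r n a z hz).2.1 (frm c) (frm_homog c)
    ext i
    rw [Polynomial.coeff_zero]
    by_cases hi : i < r * a + 1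
    · rw [← hcoef ⟨i, hi⟩, h]
      rfl
    · exact Polynomial.coeff_eq_zero_of_natDegree_lt (by omega)

/-- the variables as monomials -/
def sv (n : ℕ) (j : Fin (n + 1)) : Mon (n + 1) 1 :=
  ⟨Pi.single j 1, by rw [Finset.sum_pi_single']; simp⟩

theorem sv_surj (n : ℕ) : Function.Surjective (sv n) := by
  rintro ⟨f, hf⟩
  obtain ⟨j, hj⟩ : ∃ j, f j ≠ 0 := by
    by_contra h
    push Not at h
    rw [Finset.sum_eq_zero (fun i _ => h i)] at hf
    omega
  refine ⟨j, Subtype.ext ?_⟩
  have h1 : ∑ i ∈ Finset.univ.erase j, f i + f j = 1 := by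
    rw [Finset.sum_erase_add _ _ (Finset.mem_univ j)]
    exact hf
  have h2 : ∑ i ∈ Finset.univ.erase j, f i = 0 := by omega
  have h3 : f j = 1 := by omega
  funext i
  change (Pi.single j 1 : Fin (n + 1) → ℕ) i = f i
  by_cases hij : i = j
  · subst hij
    rw [Pi.single_eq_same, h3]
  · rw [Pi.single_eq_of_ne hij]
    exact ((Finset.sum_eq_zero_iff.1 h2) i (Finset.mem_erase.2 ⟨hij, Finset.mem_univ i⟩)).symm

theorem mono_sv (j : Fin (n + 1)) : mono K (sv n j).1 = X j := by
  unfold mono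
  have h : fs (sv n j).1 = Finsupp.single j 1 := by
    ext i
    change (Pi.single j 1 : Fin (n + 1) → ℕ) i = _
    rw [Finsupp.single_apply]
    by_cases hij : i = j
    · subst hij
      simp
    · rw [Pi.single_eq_of_ne hij, if_neg (fun h => hij h.symm)]
  rw [h]
  rfl

theorem RM_one (z : Fin (r + 1) → Fin (n + 1) → K) (j : Fin (n + 1)) (i : Fin (r * 1 + 1)) :
    RM 1 z i (sv n j) = z (finCongr (by rw [mul_one]) i) j := by
  unfold RM resC
  rw [mono_sv, aeval_X, Polynomial.finsetSum_coeff]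
  simp only [Polynomial.coeff_C_mul_X_pow]
  rw [Finset.sum_eq_single (finCongr (by rw [mul_one]) i : Fin (r + 1))]
  · rw [if_pos]
    rfl
  · intro b _ hb
    rw [if_neg]
    intro h
    apply hb
    ext
    rw [← h]
    rfl
  · intro h
    exact absurd (Finset.mem_univ _) h

end

variable {k K : Type} [Field k] [Field K] [Algebra k K]

theorem mo_comp {κ κ' : Type} (v : DV k K) (P : κ → K) (σ : κ' → κ)
    (hσ : Function.Surjective σ) : mo v (fun i => P (σ i)) = mo v P := by
  unfold mo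
  congr 1
  ext a
  constructor
  · rintro ⟨i, h1, h2⟩
    exact ⟨σ i, h1, h2⟩
  · rintro ⟨i, h1, h2⟩
    obtain ⟨j, rfl⟩ := hσ i
    exact ⟨j, h1, h2⟩

theorem hgt_comp {κ κ' : Type} (P : κ → K) (σ : κ' → κ) (hσ : Function.Surjective σ) :
    hgt k (fun i => P (σ i)) = hgt k P := by
  unfold hgt
  simp only [mo_comp _ P σ hσ]

theorem hgt_RM_one {n r : ℕ} (z : Fin (r + 1) → Fin (n + 1) → K) :
    hgt k (mnr (RM 1 z)) = hgt k (mnr z) := by
  let c : Fin (r * 1 + 1) ≃ Fin (r + 1) := finCongr (by rw [mul_one])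
  have hσ : Function.Surjective (fun (J : Fin (r + 1) → Fin (n + 1)) =>
      (fun i : Fin (r * 1 + 1) => sv n (J (c i)))) := by
    intro J'
    have h1 := fun i => sv_surj n (J' i)
    choose g hg using h1
    refine ⟨fun i => g (c.symm i), ?_⟩
    funext i
    simp only [Equiv.symm_apply_apply]
    exact hg i
  rw [← hgt_comp (mnr (RM 1 z)) _ hσ]
  congr 1
  funext J
  unfold mnr
  have h1 : (Matrix.of fun a b : Fin (r * 1 + 1) => RM 1 z a (sv n (J (c b)))) =
      (Matrix.of fun a b : Fin (r + 1) => z a (J b)).submatrix c c := by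
    ext a b
    rw [Matrix.of_apply, RM_one, Matrix.submatrix_apply, Matrix.of_apply]
  rw [h1, Matrix.det_submatrix_equiv_self]

theorem mnr_RM_zero {n r : ℕ} (z : Fin (r + 1) → Fin (n + 1) → K) :
    mnr (RM 0 z) = fun _ => 1 := by
  have h1 : ∀ (i : Fin (r * 0 + 1)) (M : Mon (n + 1) 0), RM 0 z i M = 1 := by
    intro i M
    have hM : mono K M.1 = 1 := by
      have h2 : fs M.1 = 0 := by
        ext j
        change M.1 j = 0
        have h3 := Finset.single_le_sum (f := M.1) (fun _ _ => Nat.zero_le _)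
          (Finset.mem_univ j)
        have h4 := M.2
        omega
      unfold mono
      rw [h2]
      rfl
    have hi : (i : ℕ) = 0 := by
      have := i.2
      omega
    unfold RM resC
    rw [hM, map_one, hi, Polynomial.coeff_one_zero]
  funext J
  unfold mnr
  simp only [h1]
  have h2 : ∀ m : ℕ, m = 1 → (Matrix.of fun _ _ : Fin m => (1 : K)).det = 1 := by
    rintro m rfl
    rw [Matrix.det_unique]
    rfl
  exact h2 _ (by rw [mul_zero])

theorem pf_DAI (hHG : T_HG) (_hDG0 : T_DG0) (hDGB : T_DGB) (hDUA : Pool.Agent.H30.EE.T_DUA) (hQDM : T_QDM) :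
    T_DAI := by
  intro k K _ _ _ _ _ _ htr r n a z hz
  have hfin : Finite (Mon (n + 1) a) := inferInstance
  refine ⟨?_, ?_, ?_, ?_⟩
  · unfold dS
    rw [comap_Iz hQDM a z hz]
    exact hDUA k K htr (Mon (n + 1) a) (r * a + 1) (RM a z) (hQDM K r n a z hz).2.2.2
  · exact (hHG k K htr (Fin (r * a + 1) → Mon (n + 1) a) (mnr (RM a z))).2.1
  · unfold Da
    rw [mnr_RM_zero]
    have h1 := (hHG k K htr (Fin (r * 0 + 1) → Mon (n + 1) 0) (fun _ => 1)).2.2.2.1
      (fun _ => 1)
    simpa using h1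
  · unfold Da
    rw [hgt_RM_one, hDGB k K htr (Fin (n + 1)) (r + 1) z hz, neg_neg]

end Pool.Agent.H19.EEU
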