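import Pool.Agent.H30.EE.TargetsU
import Pool.Agent.H27.LV.Curve

/-!
# MP_70ba79_ag, board `ee_modules`: UDG

(4.1a): small relations between `u` and the combinations of the `w i` bound the degree of `w`.
-/

set_option autoImplicit false

namespace Pool.Agent.H19.EEU

open MvPolynomial SC Pool.Agent.H27.LV Pool.Agent.H17.VG Pool.Agent.H30.EE

section

variable {k E : Type} [Field k] [Field E] [Algebra k E]

theorem h1_const (c : k) : h1 k (algebraMap k E c) = 0 := by
  unfold h1 Pool.Agent.H27.LV.deg
  refine finsum_eq_zero_of_forall_eq_zero fun v => ?_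
  unfold poleOrder
  rw [← Nat.le_zero]
  refine Finset.sup_le fun i _ => ?_
  rw [v.ord_base]
  simp

theorem h1_le_deg [IsAlgClosed k] [CharZero k] [Algebra.EssFiniteType k E]
    (htr : Algebra.trdeg k E = 1) {m : ℕ} (w : Fin (m + 1) → E) (i : Fin (m + 1)) :
    h1 k (w i) ≤ Pool.Agent.H27.LV.deg k w := by
  unfold h1 Pool.Agent.H27.LV.deg
  refine finsum_le_finsum' (pfi k E htr _ _) (pfi k E htr _ w) fun v => ?_
  show poleOrder v _ ≤ poleOrder v _
  unfold poleOrder
  refine Finset.sup_le fun j _ => ?_
  exact Finset.le_sup (f := fun i => (-(v.ord (w i))).toNat) (Finset.mem_univ i)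

/-- a nonzero form gives a nonzero polynomial over `k(t)` -/
theorem exists_pol [IsAlgClosed k] [CharZero k] {t u : E} (ht : Transcendental k t) {b : ℕ}
    {g : MvPolynomial (Fin 3) k} (hg : g ≠ 0) (hh : g.IsHomogeneous b)
    (h0 : aeval ![1, u, t] g = 0) :
    ∃ p : Polynomial (IntermediateField.adjoin k {t}), p ≠ 0 ∧ p.natDegree ≤ b ∧
      Polynomial.aeval u p = 0 := by
  obtain ⟨F, hF⟩ : ∃ F, F = IntermediateField.adjoin k ({t} : Set E) := ⟨_, rfl⟩
  rw [← hF]
  have htF : t ∈ F := by
    rw [hF]
    exact IntermediateField.subset_adjoin k _ rfl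
  obtain ⟨t', ht'⟩ : ∃ t' : F, t' = ⟨t, htF⟩ := ⟨_, rfl⟩
  have htt : Transcendental k t' := by
    intro h
    apply ht
    have h1 := h.algebraMap (A := E)
    rw [ht'] at h1
    exact h1
  obtain ⟨y, hy⟩ : ∃ y : Fin 3 → Polynomial F, y = ![1, Polynomial.X, Polynomial.C t'] :=
    ⟨_, rfl⟩
  refine ⟨aeval y (map (algebraMap k F) g), ?_, ?_, ?_⟩
  · intro hp
    -- a point where `X_0 g` does not vanish
    have hex : ∃ x : Fin 3 → k, eval x (X 0 * g) ≠ 0 := by
      by_contra hcon
      push Not at hcon
      have h1 : X 0 * g = 0 := by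
        refine MvPolynomial.funext fun x => ?_
        rw [hcon x, map_zero]
      exact mul_ne_zero (X_ne_zero 0) hg h1
    obtain ⟨x, hx⟩ := hex
    rw [map_mul, eval_X] at hx
    have hx0 : x 0 ≠ 0 := left_ne_zero_of_mul hx
    have hxg : eval x g ≠ 0 := right_ne_zero_of_mul hx
    have hsc : eval x g = x 0 ^ b * eval (fun i => x i / x 0) g := by
      rw [eval_eq', eval_eq', Finset.mul_sum]
      refine Finset.sum_congr rfl fun d hd => ?_
      have h1 : ∑ i, d i = b := by
        have h2 := hh (mem_support_iff.1 hd)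
        rw [← h2, Finsupp.weight_apply, Finsupp.sum_fintype]
        · simp
        · simp
      have h3 : ∏ i, x i ^ d i = x 0 ^ b * ∏ i, (x i / x 0) ^ d i := by
        rw [← h1, ← Finset.prod_pow_eq_pow_sum, ← Finset.prod_mul_distrib]
        refine Finset.prod_congr rfl fun i _ => ?_
        rw [← mul_pow, mul_div_cancel₀ _ hx0]
      rw [h3]
      ring
    have hz : eval (fun i => x i / x 0) g ≠ 0 := by
      intro h1
      rw [h1, mul_zero] at hsc
      exact hxg hsc
    obtain ⟨q, hq⟩ : ∃ q : Polynomial k, q = aeval ![1, Polynomial.C (x 1 / x 0), Polynomial.X] g :=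
      ⟨_, rfl⟩
    have hq1 : q.eval (x 2 / x 0) = eval (fun i => x i / x 0) g := by
      have h1 : ∀ (r : Polynomial k), r.eval (x 2 / x 0) =
          Polynomial.aeval (x 2 / x 0) r := by
        intro r
        rw [Polynomial.coe_aeval_eq_eval]
      have h2 : ∀ z : Fin 3 → k, eval z g = aeval z g := fun z => by
        rw [← coe_aeval_eq_eval]
        rfl
      rw [h1, h2, hq, ← AlgHom.comp_apply, comp_aeval]
      congr 1
      congr 1
      funext i
      fin_cases i
      · simp [hx0]
      · simp
      · simp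
    have hq0 : q ≠ 0 := by
      intro h1
      rw [h1, Polynomial.eval_zero] at hq1
      exact hz hq1.symm
    have hqt : Polynomial.aeval t' q ≠ 0 := by
      intro h1
      exact htt ⟨q, hq0, h1⟩
    apply hqt
    have h4 : Polynomial.aeval t' q = Polynomial.eval (algebraMap k F (x 1 / x 0))
        (aeval y (map (algebraMap k F) g)) := by
      have h5 : ∀ r : Polynomial F, r.eval (algebraMap k F (x 1 / x 0)) =
          Polynomial.aeval (algebraMap k F (x 1 / x 0)) r := by
        intro r
        rw [Polynomial.coe_aeval_eq_eval]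
      rw [h5, ← AlgHom.comp_apply, comp_aeval, aeval_map_algebraMap, hq, ← AlgHom.comp_apply,
        comp_aeval]
      congr 1
      congr 1
      rw [hy]
      funext i
      fin_cases i
      · simp
      · simp
      · simp
    rw [h4, hp, Polynomial.eval_zero]
  · have h1 : (map (algebraMap k F) g).totalDegree ≤ b :=
      (hh.map (algebraMap k F)).totalDegree_le
    have h2 := aeval_natDegree_le (m := b) (n := 1) _ h1 y (by
      intro i
      rw [hy]
      fin_cases i
      · simp
      · simp
      · simp)
    rwa [mul_one] at h2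
  · have h5 : ∀ r : Polynomial F, Polynomial.aeval u r =
        ((Polynomial.aeval u : Polynomial F →ₐ[F] E)) r := fun r => rfl
    rw [← AlgHom.comp_apply, comp_aeval, aeval_map_algebraMap, ← h0]
    congr 1
    congr 1
    rw [hy]
    funext i
    fin_cases i
    · simp
    · simp
    · rw [ht']
      simp

theorem top_of {F : IntermediateField k E} {u t : E} {ι : Type} {w : ι → E} (htF : t ∈ F)
    (htop : IntermediateField.adjoin k (Set.range w) = ⊤)
    (hw : ∀ i, w i ∈ IntermediateField.adjoin k ({u, t} : Set E)) :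
    IntermediateField.adjoin F {u} = ⊤ := by
  obtain ⟨G, hG⟩ : ∃ G : IntermediateField F E, G = IntermediateField.adjoin F {u} := ⟨_, rfl⟩
  rw [← hG]
  have huG : u ∈ G.restrictScalars k := by
    rw [IntermediateField.mem_restrictScalars, hG]
    exact IntermediateField.subset_adjoin _ _ rfl
  have htG : t ∈ G.restrictScalars k := by
    rw [IntermediateField.mem_restrictScalars]
    exact G.algebraMap_mem ⟨t, htF⟩
  have h1 : G.restrictScalars k = ⊤ := by
    rw [eq_top_iff, ← htop, IntermediateField.adjoin_le_iff]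
    rintro _ ⟨i, rfl⟩
    have h3 : IntermediateField.adjoin k ({u, t} : Set E) ≤ G.restrictScalars k := by
      rw [IntermediateField.adjoin_le_iff]
      rintro x (hx | hx)
      · rw [hx]
        exact huG
      · rw [Set.mem_singleton_iff] at hx
        rw [hx]
        exact htG
    exact h3 (hw i)
  rw [eq_top_iff]
  intro x _
  have h5 : x ∈ G.restrictScalars k := by
    rw [h1]
    exact IntermediateField.mem_top
  exact h5

theorem finrank_bound {F : IntermediateField k E} [FiniteDimensional F E] {u : E}
    (hgen : IntermediateField.adjoin F {u} = ⊤) {p : Polynomial F} (hp0 : p ≠ 0)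
    (hpu : Polynomial.aeval u p = 0) : Module.finrank F E ≤ p.natDegree := by
  have hint : IsIntegral F u := Algebra.IsIntegral.isIntegral u
  have h1 := IntermediateField.adjoin.finrank hint
  rw [hgen, IntermediateField.finrank_top'] at h1
  rw [h1]
  exact Polynomial.natDegree_le_of_dvd (minpoly.dvd _ _ hpu) hp0

theorem pf_UDG (hUPE : T_UPE) (hUFR : T_UFR) : T_UDG := by
  intro k E _ _ _ _ _ _ htr m B w u hu huw htop hrel
  obtain ⟨c, hc, hwc⟩ := hUPE k E htr m w u hu
  obtain ⟨t, ht⟩ : ∃ t, t = ∑ i, (c i : E) * w i := ⟨_, rfl⟩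
  have hdeg : h1 k t = Pool.Agent.H27.LV.deg k w := by
    rw [ht]
    exact hc
  -- `t` is not constant
  have htn : t ∉ Set.range (algebraMap k E) := by
    rintro ⟨e, he⟩
    rw [← he, h1_const] at hdeg
    obtain ⟨i, hi⟩ := huw
    have h1 := h1_le_deg htr w i
    rw [hi, ← hdeg] at h1
    obtain ⟨hf, hr⟩ := hUFR k E htr u hu
    have h2 : 0 < Module.finrank (IntermediateField.adjoin k {u}) E := Module.finrank_pos
    omega
  have htt : Transcendental k t := by
    intro halg
    apply htn
    have hint : IsIntegral k t := halg.isIntegral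
    have h1 : (minpoly k t).degree = 1 := IsAlgClosed.degree_eq_one_of_irreducible k
      (minpoly.irreducible hint)
    obtain ⟨c, hc⟩ := minpoly.mem_range_of_degree_eq_one k t h1
    exact ⟨c, hc⟩
  obtain ⟨b, g, hb, hg, hh, h0⟩ := hrel c
  rw [← ht] at h0
  obtain ⟨p, hp0, hpd, hpu⟩ := exists_pol htt hg hh h0
  obtain ⟨hf, hr⟩ := hUFR k E htr t htn
  rw [← hdeg, hr]
  have htF : t ∈ IntermediateField.adjoin k ({t} : Set E) :=
    IntermediateField.subset_adjoin k _ rfl
  have hgen := top_of (u := u) htF htop (fun i => by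
    have h2 := hwc i
    rw [← ht] at h2
    exact h2)
  exact ((finrank_bound hgen hp0 hpu).trans hpd).trans hb

end

end Pool.Agent.H19.EEU
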